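import Pool.Agent.Helper94.BA.KI
import Pool.Agent.Helper94.BA.Node
import Mathlib.Data.W.Cardinal
import Mathlib.SetTheory.Ordinal.Univ
import Mathlib.SetTheory.Ordinal.Family
import Mathlib.SetTheory.Cardinal.Arithmetic

/-!
# BA-R9a: the size of the iterations
-/

set_option autoImplicit false
set_option linter.unusedSectionVars false

namespace Pool.Agent.Helper94.BA

open Pool.Agent.Helper33.HM

section Size

open Cardinal in
/-- Small types have at most as many elements as there are small ordinals. -/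
theorem h77_mk_le_of_small (X : Type 1) [Small.{0} X] : #X ≤ #Ordinal.{0} := by
  rw [mk_ordinal]
  have h := (small_iff_lift_mk_lt_univ (α := X)).1 inferInstance
  rw [lift_id] at h
  exact h.le

open Cardinal in
theorem h77_aleph0_le : ℵ₀ ≤ #Ordinal.{0} := by
  rw [mk_ordinal]
  exact (aleph0_lt_univ).le

open Cardinal in
/-- There are as many sequences of small ordinals as small ordinals. -/
theorem h77_mk_seq : #(ℕ → Ordinal.{0}) ≤ #Ordinal.{0} := by
  classical
  have h1 : ∀ γ : Ordinal.{0}, #(ℕ → Set.Iic γ) ≤ #Ordinal.{0} := fun γ =>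
    h77_mk_le_of_small _
  have h2 : ∀ γ : Ordinal.{0}, ∃ e : (ℕ → Set.Iic γ) → Ordinal.{0}, Function.Injective e :=
    fun γ => let ⟨e⟩ := h1 γ; ⟨e, e.injective⟩
  choose e he using h2
  have hmul : #(Ordinal.{0} × Ordinal.{0}) ≤ #Ordinal.{0} := by
    rw [mk_prod, lift_id, mul_eq_self h77_aleph0_le]
  refine le_trans (mk_le_of_injective (f := fun f : ℕ → Ordinal.{0} =>
    ((⨆ n, f n, e (⨆ n, f n) fun n => ⟨f n, Ordinal.le_iSup f n⟩) :
      Ordinal.{0} × Ordinal.{0})) ?_) hmul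
  intro f g hfg
  have h3 : (⨆ n, f n) = ⨆ n, g n := congrArg Prod.fst hfg
  have h4 := congrArg Prod.snd hfg
  simp only at h4
  have h5 : ∀ (γ δ : Ordinal.{0}) (hγδ : γ = δ) (hf : ∀ n, f n ∈ Set.Iic γ)
      (hg : ∀ n, g n ∈ Set.Iic δ), e γ (fun n => ⟨f n, hf n⟩) = e δ (fun n => ⟨g n, hg n⟩) →
      f = g := by
    rintro γ _ rfl hf hg h
    have := he γ h
    funext n
    exact congrArg Subtype.val (congrFun this n)
  exact h5 _ _ h3 _ _ h4

open Cardinal in
theorem h77_power_aleph0 : #Ordinal.{0} ^ ℵ₀ ≤ #Ordinal.{0} := by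
  have h := h77_mk_seq
  rwa [mk_arrow, lift_id'.{0, 1}, mk_nat, lift_aleph0] at h

open Cardinal in
theorem h77_power_le (c : Cardinal.{1}) (hc : c ≤ ℵ₀) : #Ordinal.{0} ^ c ≤ #Ordinal.{0} :=
  (power_le_power_left (by rw [mk_ordinal]; exact univ_ne_zero) hc).trans h77_power_aleph0

open Cardinal in
/-- Countable products of types of size at most the class of small ordinals. -/
theorem h77_mk_fun {X : Type 1} (hX : #X ≤ #Ordinal.{0}) {ι : Type} [Countable ι] :
    #(ι → X) ≤ #Ordinal.{0} := by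
  have h : #(ι → X) = #X ^ lift.{1} #ι := by rw [mk_arrow, lift_id'.{0, 1}]
  rw [h]
  refine (power_le_power_right hX).trans (h77_power_le _ ?_)
  exact lift_le_aleph0.2 (mk_le_aleph0)

variable {P₀ I : Type 1} [Preorder P₀] [LinearOrder I]

/-- The labels of the trees which code conditions. -/
abbrev H77Lab (P₀ I : Type 1) [LinearOrder I] (ℓ : I) : Type 1 :=
  P₀ ⊕ (Set.Iio ℓ × List Bool × ℕ × (ℕ → ℕ → ℕ → Bool))

/-- The arities. -/
def H77Ar (P₀ : Type 1) {I : Type 1} [LinearOrder I] (ℓ : I) : H77Lab P₀ I ℓ → Type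
  | .inl _ => Empty
  | .inr _ => Option (ℕ × ℕ × ℕ)

/-- The condition coded by a tree. -/
def h77dec {P₀ I : Type 1} [LinearOrder I] {ℓ : I} : WType (H77Ar P₀ ℓ) → Raw P₀ I :=
  WType.elim (Raw P₀ I) fun x =>
    match x with
    | ⟨.inl a, _⟩ => .nil a
    | ⟨.inr (i, s, m, v), f⟩ => .cons (f none) i.1 s m (fun l n k => f (some (l, n, k))) v

theorem h77dec_surj {F : I → Set (Name P₀ I)} {ℓ : I} (p : Raw P₀ I) (hp : p.Valid F)
    (hl : p.lt ℓ) : ∃ w : WType (H77Ar P₀ ℓ), h77dec w = p := by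
  induction p with
  | nil a => exact ⟨⟨.inl a, Empty.rec⟩, rfl⟩
  | cons p i s m f v ih ihf =>
    obtain ⟨h1, h2, h3, h4⟩ := hp
    have hi : i < ℓ := hl
    obtain ⟨w, hw⟩ := ih h1 (Raw.lt_mono hi.le h2)
    choose g hg using fun l n k => ihf l n k (h3 l n k).1 (Raw.lt_mono hi.le (h3 l n k).2)
    refine ⟨⟨.inr (⟨i, hi⟩, s, m, v), fun o => match (o : Option (ℕ × ℕ × ℕ)) with
      | none => w
      | some (l, n, k) => g l n k⟩, ?_⟩
    simp only [h77dec, WType.elim] at hw hg ⊢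
    rw [hw]
    congr 1
    funext l n k
    exact hg l n k

open Cardinal in
theorem mk_cnd (hI : KI I) (hP : #P₀ ≤ #Ordinal.{0}) (F : I → Set (Name P₀ I)) (ℓ : I) :
    #(Cnd F ℓ) ≤ #Ordinal.{0} := by
  classical
  have hlab : #(H77Lab P₀ I ℓ) ≤ #Ordinal.{0} := by
    have h1 : #(Set.Iio ℓ × List Bool × ℕ × (ℕ → ℕ → ℕ → Bool)) ≤ #Ordinal.{0} := by
      rw [mk_prod, lift_id'.{0, 1}]
      refine mul_le_of_le h77_aleph0_le (hI.seg ℓ) ?_
      have := h77_mk_le_of_small (ULift.{1} (List Bool × ℕ × (ℕ → ℕ → ℕ → Bool)))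
      rwa [mk_uLift] at this
    rw [mk_sum, lift_id, lift_id]
    exact add_le_of_le h77_aleph0_le hP h1
  have hW : #(WType (H77Ar P₀ ℓ)) ≤ #Ordinal.{0} := by
    refine WType.cardinalMk_le_of_le' ?_
    refine (Cardinal.sum_le_mk_mul_iSup _).trans ?_
    refine mul_le_of_le h77_aleph0_le hlab ?_
    refine ciSup_le' fun a => h77_power_le _ ?_
    refine lift_le_aleph0.2 ?_
    rcases a with a | a
    · exact mk_le_aleph0 (α := Empty)
    · exact mk_le_aleph0 (α := Option (ℕ × ℕ × ℕ))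
  refine le_trans ?_ hW
  choose c hc using fun p : Cnd F ℓ => h77dec_surj p.1 p.2.1 p.2.2
  refine mk_le_of_injective (f := c) fun p q hpq => Subtype.ext ?_
  rw [← hc p, ← hc q, hpq]

end Size

end Pool.Agent.Helper94.BA
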