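import Pool.Agent.Helper94.BA.Defs
import Mathlib.SetTheory.Ordinal.Family

/-!
# BA-E4: unboundedness is preserved at limits
-/

set_option autoImplicit false
set_option linter.unusedSectionVars false

namespace Pool.Agent.Helper94.BA

open Pool.Agent.Helper33.HM

universe u

theorem h77_leStar_trans {B : Type u} [CompleteBooleanAlgebra B] (f g h : ℕ → ℕ → B) :
    leStar f g ⊓ leStar g h ≤ leStar f h := by
  unfold leStar
  rw [iSup_inf_eq]
  refine iSup_le fun m => ?_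
  rw [inf_iSup_eq]
  refine iSup_le fun m' => ?_
  refine le_iSup_of_le (max m m') ?_
  refine le_iInf₂ fun n hn => le_iInf fun k => ?_
  have h1 : (⨅ n : ℕ, ⨅ _ : m ≤ n, ⨅ k : ℕ, g n k ⇨ f n k) ≤ g n k ⇨ f n k :=
    (iInf₂_le n ((le_max_left _ _).trans hn)).trans (iInf_le _ k)
  have h2 : (⨅ n : ℕ, ⨅ _ : m' ≤ n, ⨅ k : ℕ, h n k ⇨ g n k) ≤ h n k ⇨ g n k :=
    (iInf₂_le n ((le_max_right _ _).trans hn)).trans (iInf_le _ k)
  refine (inf_le_inf h1 h2).trans ?_
  rw [le_himp_iff]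
  calc (g n k ⇨ f n k) ⊓ (h n k ⇨ g n k) ⊓ h n k
      = (g n k ⇨ f n k) ⊓ (h n k ⊓ (h n k ⇨ g n k)) := by rw [inf_assoc, inf_comm (h n k)]
    _ ≤ (g n k ⇨ f n k) ⊓ g n k := inf_le_inf_left _ (by rw [inf_himp]; exact inf_le_right)
    _ ≤ f n k := by rw [himp_inf_self]; exact inf_le_left

theorem h77_bdd (f : ℕ → Ordinal.{0}) : ∃ γ, ∀ n, f n ≤ γ :=
  ⟨⨆ n, f n, fun n => Ordinal.le_iSup f n⟩

section E4

variable {B : Type 1} [CompleteBooleanAlgebra B]

theorem unb_limit (hc : CCC B) {Λ : Type 1} [LinearOrder Λ] [Nonempty Λ] (S : Λ → Set B)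
    (hS : ∀ j, IsSub (S j)) (hmono : Monotone S)
    (hd : ∀ b : B, b ≠ ⊥ → ∃ j, ∃ a ∈ S j, a ≠ ⊥ ∧ a ≤ b) (h : Ordinal.{0} → ℕ → ℕ → B)
    (hh : ∀ j β n k, h β n k ∈ S j) (hfn : ∀ β, IsFn Set.univ (h β))
    (hm : ∀ β γ, β ≤ γ → leStar (h β) (h γ) = ⊤) (hu : ∀ j, UnbOn (S j) h) :
    UnbOn Set.univ h := by
  classical
  intro g hg
  by_contra hb
  have anti : ∀ (f : ℕ → ℕ → B) (β γ : Ordinal.{0}), β ≤ γ →
      leStar (h γ) f ≤ leStar (h β) f := by
    intro f β γ hβγ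
    have := h77_leStar_trans (h β) (h γ) f
    rwa [hm β γ hβγ, top_inf_eq] at this
  -- the choices
  have key : ∀ β : Ordinal.{0}, ∃ (j : Λ) (m : ℕ) (a : B), a ∈ S j ∧ a ≠ ⊥ ∧
      ∀ n, m ≤ n → ∀ k, a ≤ g n k ⇨ h β n k := by
    intro β
    have h1 : (⨅ β, leStar (h β) g) ≤ leStar (h β) g := iInf_le _ β
    obtain ⟨m, hm'⟩ := exists_inf_ne_bot hb h1
    obtain ⟨j, a, haj, ha0, hab⟩ := hd _ hm'
    refine ⟨j, m, a, haj, ha0, fun n hn k => ?_⟩
    exact (hab.trans inf_le_right).trans ((iInf₂_le n hn).trans (iInf_le _ k))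
  choose J M a haS ha0 hale using key
  by_cases hcase : ∃ j, ∀ γ : Ordinal.{0}, ∃ β, γ ≤ β ∧ J β ≤ j
  · obtain ⟨j, hj⟩ := hcase
    have h2 : ∃ m, ∀ γ : Ordinal.{0}, ∃ β, γ ≤ β ∧ J β ≤ j ∧ M β = m := by
      by_contra hcon
      push Not at hcon
      choose G hG using hcon
      obtain ⟨γ, hγ⟩ := h77_bdd G
      obtain ⟨β, hβ, hJ⟩ := hj γ
      exact hG (M β) β ((hγ _).trans hβ) hJ rfl
    obtain ⟨m, hmZ⟩ := h2
    let f : ℕ → ℕ → B := fun n k =>
      if n < m then ⊤ else ⨅ β : Ordinal.{0}, ⨅ _ : J β ≤ j ∧ M β = m, a β ⇨ h β n k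
    have hf : IsFn (S j) f := by
      refine ⟨?_, ?_, ?_⟩
      · intro n k
        refine (hS j).ite_mem (hS j).top_mem ?_
        refine (hS j).iInf_mem fun β => (hS j).iInf_mem fun hβ => ?_
        exact (hS j).himp_mem (hmono hβ.1 (haS β)) (hh j β n k)
      · intro n k
        by_cases hn : n < m
        · simp only [f, if_pos hn, le_refl]
        · simp only [f, if_neg hn]
          exact iInf_mono fun β => iInf_mono fun _ => himp_le_himp_left ((hfn β).mono n k)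
      · intro n
        by_cases hn : n < m
        · simp only [f, if_pos hn]
          exact iSup_const
        · simp only [f, if_neg hn]
          rw [← compl_eq_bot, eq_bot_iff, ← compl_top, ← hg.tot n, compl_iSup, compl_iSup]
          refine iInf_mono fun k => ?_
          simp only [compl_iInf]
          refine iSup_le fun β => iSup_le fun hβ => ?_
          rw [himp_eq, compl_sup, compl_compl]
          have h3 := hale β n (hβ.2.le.trans (not_lt.1 hn)) k
          rw [le_himp_iff] at h3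
          rw [le_compl_iff_disjoint_right, disjoint_iff, eq_bot_iff]
          calc (h β n k)ᶜ ⊓ a β ⊓ g n k = (h β n k)ᶜ ⊓ (a β ⊓ g n k) := inf_assoc _ _ _
            _ ≤ (h β n k)ᶜ ⊓ h β n k := inf_le_inf_left _ h3
            _ = ⊥ := compl_inf_eq_bot
    have h4 := hu j f hf
    -- some value is zero
    have h5 : ∃ β₀ : Ordinal.{0}, leStar (h β₀) f = ⊥ := by
      obtain ⟨c, -, hcD, -, -, hcs⟩ := exists_partition hc (isSub_univ (B := B))
        (fun c => ∃ β : Ordinal.{0}, c ≤ (leStar (h β) f)ᶜ) (e := ⊤) (by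
          intro b _ hb0
          have : b ≤ ⨆ β, (leStar (h β) f)ᶜ := by
            rw [← compl_iInf, h4, compl_bot]
            exact le_top
          obtain ⟨β, hβ⟩ := exists_inf_ne_bot hb0 this
          exact ⟨_, trivial, hβ, inf_le_left, β, inf_le_right⟩) ⟨0, bot_le⟩ trivial
      choose G hG using hcD
      obtain ⟨γ, hγ⟩ := h77_bdd G
      refine ⟨γ, ?_⟩
      rw [← compl_eq_top, eq_top_iff, ← hcs]
      exact iSup_le fun n => (hG n).trans (compl_le_compl (anti f _ _ (hγ n)))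
    obtain ⟨β₀, hβ₀⟩ := h5
    obtain ⟨β, hβ, hJβ, hMβ⟩ := hmZ β₀
    apply ha0 β
    rw [eq_bot_iff, ← hβ₀]
    refine le_trans ?_ (anti f _ _ hβ)
    refine le_iSup_of_le m ?_
    refine le_iInf₂ fun n hn => le_iInf fun k => ?_
    simp only [f, if_neg (not_lt.2 hn)]
    rw [le_himp_iff, inf_comm, ← le_himp_iff]
    exact iInf₂_le β ⟨hJβ, hMβ⟩
  · push Not at hcase
    choose Γ hΓ using hcase
    have hbd : ∀ s : ℕ → Λ, ∃ j, ∀ n, s n ≤ j := by
      intro s
      obtain ⟨γ, hγ⟩ := h77_bdd fun n => Γ (s n)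
      exact ⟨J γ, fun n => (hΓ (s n) γ (hγ n)).le⟩
    have hpart : ∀ x : B, ∃ s : ℕ → Λ, ∃ c : ℕ → B, (∀ i, c i ∈ S (s i)) ∧ ⨆ i, c i = x := by
      intro x
      obtain ⟨c, -, hcD, -, -, hcs⟩ := exists_partition hc (isSub_univ (B := B))
        (fun c => ∃ j, c ∈ S j) (e := x) (by
          intro b _ hb0
          obtain ⟨j, y, hyj, hy0, hyb⟩ := hd b hb0
          exact ⟨y, trivial, hy0, hyb, j, hyj⟩)
        ⟨Classical.arbitrary Λ, (hS _).bot_mem⟩ trivial
      choose s hs using hcD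
      exact ⟨s, c, hs, hcs⟩
    have hx : ∀ x : B, ∃ j, x ∈ S j := by
      intro x
      obtain ⟨s, c, hs, hcs⟩ := hpart x
      obtain ⟨j, hj⟩ := hbd s
      refine ⟨j, ?_⟩
      rw [← hcs]
      exact (hS j).iSup_mem fun i => hmono (hj i) (hs i)
    choose X hX using hx
    obtain ⟨j, hj⟩ := hbd fun n => X (g n.unpair.1 n.unpair.2)
    have hgj : IsFn (S j) g := by
      refine ⟨fun n k => ?_, hg.mono, hg.tot⟩
      have := hj (Nat.pair n k)
      rw [Nat.unpair_pair] at this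
      exact hmono this (hX _)
    exact hb (hu j g hgj)

end E4

end Pool.Agent.Helper94.BA
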